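import Pool.Agent.P.MP_a11166_lc.Dec

set_option autoImplicit false

namespace Pool.Agent.Results.MP_a11166_lc.TwoVariables

open Pool.Agent.WEq

/-- For every finite alphabet, satisfiability of quantifier-free formulas built from word equations
and linear length constraints is decidable for formulas in which at most two variables occur. -/
theorem result (S : Type) [Fintype S] [Primcodable S] :
    ∃ f : List (Tok S) → Bool, Computable f ∧
      ∀ φ : Fml S, φ.vars.card ≤ 2 → (f φ.code = true ↔ ∃ h : ℕ → List S, φ.Holds h) :=
  decide_two S

end Pool.Agent.Results.MP_a11166_lc.TwoVariables
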