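import Pool.Agent.P.MP_a11166_lc.Und.Main

/-! Satisfiability of quantifier-free formulas of word equations and linear length constraints is
undecidable over every alphabet with at least two letters. -/

set_option autoImplicit false

namespace Pool.Agent.Results.MP_a11166_lc.Undecidable

open Pool.Agent.WEq

theorem icode_inj {c d : ℤ} (h : icode c = icode d) : c = d := by
  simp only [icode, Prod.mk.injEq] at h
  omega

theorem code_cancel {S : Type} (φ : Fml S) : ∀ (ψ : Fml S) (s t : List (Tok S)),
    s ++ φ.code = t ++ ψ.code → s = t ∧ φ = ψ := by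
  induction φ with
  | weq U V =>
    intro ψ s t h
    cases ψ <;> simp only [Fml.code, ← List.append_assoc] at h <;>
      obtain ⟨h1, h2⟩ := List.append_inj' h rfl <;> simp_all
  | len cs r c =>
    intro ψ s t h
    cases ψ with
    | len cs' r' c' =>
      simp only [Fml.code] at h
      obtain ⟨h1, h2⟩ := List.append_inj' h rfl
      simp only [List.cons.injEq, Sum.inr.injEq, Sum.inl.injEq, Prod.mk.injEq, and_true] at h2
      obtain ⟨h2, h3, h4⟩ := h2
      have e : cs = cs' := List.map_injective_iff.2 (fun p q hpq => by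
        simp only [Prod.mk.injEq] at hpq
        exact Prod.ext (icode_inj hpq.1) hpq.2) h2
      have e' : r = r' := by cases r <;> cases r' <;> simp_all [Cmp.code]
      exact ⟨h1, by rw [e, e', icode_inj h4]⟩
    | _ =>
      simp only [Fml.code, ← List.append_assoc] at h
      simpa using (List.append_inj' h rfl).2
  | and φ₁ φ₂ ih₁ ih₂ =>
    intro ψ s t h
    cases ψ <;> simp only [Fml.code, ← List.append_assoc] at h <;>
      obtain ⟨h1, h2⟩ := List.append_inj' h rfl <;> try simp at h2
    obtain ⟨h3, rfl⟩ := ih₂ _ _ _ h1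
    obtain ⟨rfl, rfl⟩ := ih₁ _ _ _ h3
    exact ⟨rfl, rfl⟩
  | or φ₁ φ₂ ih₁ ih₂ =>
    intro ψ s t h
    cases ψ <;> simp only [Fml.code, ← List.append_assoc] at h <;>
      obtain ⟨h1, h2⟩ := List.append_inj' h rfl <;> try simp at h2
    obtain ⟨h3, rfl⟩ := ih₂ _ _ _ h1
    obtain ⟨rfl, rfl⟩ := ih₁ _ _ _ h3
    exact ⟨rfl, rfl⟩
  | not φ ih =>
    intro ψ s t h
    cases ψ <;> simp only [Fml.code, ← List.append_assoc] at h <;>
      obtain ⟨h1, h2⟩ := List.append_inj' h rfl <;> try simp at h2
    obtain ⟨rfl, rfl⟩ := ih _ _ _ h1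
    exact ⟨rfl, rfl⟩

/-- Sanity check: different formulas have different codes. -/
theorem code_injective (S : Type) : Function.Injective (Fml.code : Fml S → List (Tok S)) :=
  fun φ ψ h => (code_cancel φ ψ [] [] h).2

theorem result (S : Type) [Fintype S] [Primcodable S] [Nontrivial S] :
    ¬ ∃ f : List (Tok S) → Bool, Computable f ∧
      ∀ φ : Fml S, (f φ.code = true ↔ ∃ h : ℕ → List S, φ.Holds h) :=
  Pool.Agent.WUnd.undecidable S

end Pool.Agent.Results.MP_a11166_lc.Undecidable
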